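import Pool.Agent.W2helper64.CUN.Main

set_option autoImplicit false
set_option linter.unusedSectionVars false

/-!
Cunningham chains of exact length in the random sieve: the asymptotic formula with a square-root error.
-/

namespace Pool.Agent.W2helper64.CUN

open Finset Filter Topology Polynomial MeasureTheory Pool.Agent.W2helper64.RS Pool.Agent.W2helper64.RK
open Pool.Agent.W2helper64.BH (Hit nuR nuB_eq mem_Im Im cnt HH AllR PP PP_div FF mem_Pr log8 Pr)
open Pool.Agent.H373R2.T7 (pz nuB)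

/-- the number of `1 ≤ n ≤ x` which start a chain of exact length `k` -/
noncomputable def ex (k : ℕ) (a : (p : Nat.Primes) → ZMod (p : ℕ)) (x : ℕ) : ℕ :=
  (@Finset.filter ℕ (fun n => (∀ i < k, c i n ∈ R a) ∧ c k n ∉ R a) (Classical.decPred _) (Icc 1 x)).card

theorem ex_add (k : ℕ) (a : (p : Nat.Primes) → ZMod (p : ℕ)) (x : ℕ) :
    ex k a x + BH.cnt (chS (k + 1)) a x = BH.cnt (chS k) a x := by
  classical
  unfold ex BH.cnt
  rw [← card_union_of_disjoint]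
  · congr 1
    ext n
    rw [Finset.mem_union, mf', mf', mf', allR_iff, allR_iff]
    constructor
    · rintro (⟨h1, h2, -⟩ | ⟨h1, h2⟩)
      · exact ⟨h1, h2⟩
      · exact ⟨h1, fun i hi => h2 i (by omega)⟩
    · rintro ⟨h1, h2⟩
      by_cases h3 : c k n ∈ R a
      · refine Or.inr ⟨h1, fun i hi => ?_⟩
        rcases Nat.lt_succ_iff_lt_or_eq.mp hi with h4 | h4
        · exact h2 i h4
        · rw [h4]; exact h3
      · exact Or.inl ⟨h1, h2, h3⟩
  · rw [Finset.disjoint_left]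
    intro n h1 h2
    rw [mf'] at h1
    rw [mf', allR_iff] at h2
    exact h1.2.2 (h2.2 k (by omega))

/-- the number of the forbidden classes -/
noncomputable def nu (k : ℕ) (a : (p : Nat.Primes) → ZMod (p : ℕ)) (p : Nat.Primes) : ℕ :=
  if (p : ℕ) = 2 ∨ a p = -1 then 1 else min k (orderOf (2 : ZMod (p : ℕ)))

theorem nuB_chain {k : ℕ} (hk : 1 ≤ k) (a : (p : Nat.Primes) → ZMod (p : ℕ))
    (h2 : a ⟨2, Nat.prime_two⟩ = 0) (p : Nat.Primes) :
    nuB (Hit (chS k) a) (p : ℕ) = nu k a p := by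
  classical
  rw [nuB_eq]
  unfold nu
  by_cases hp : (p : ℕ) = 2
  · have hpp : p = ⟨2, Nat.prime_two⟩ := Subtype.ext hp
    rw [if_pos (Or.inl hp)]
    subst hpp
    rw [h2]
    exact nuR_two k hk
  · rw [nuR_chain k hk p.2 hp]
    by_cases h3 : a p = -1
    · rw [if_pos h3, if_pos (Or.inr h3)]
    · rw [if_neg h3, if_neg (by tauto)]

theorem nu_lt (k : ℕ) (a : (p : Nat.Primes) → ZMod (p : ℕ)) (p : Nat.Primes) : nu k a p < (p : ℕ) := by
  unfold nu
  split_ifs with h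
  · exact p.2.one_lt
  · push Not at h
    have : Fact (p : ℕ).Prime := ⟨p.2⟩
    have h1 := ZMod.orderOf_dvd_card_sub_one (two_ne p.2 h.1)
    have h2 := Nat.le_of_dvd (by have := p.2.two_le; omega) h1
    have h3 := p.2.two_le
    have h4 := min_le_right k (orderOf (2 : ZMod (p : ℕ)))
    omega

theorem rpow_div_tendsto (k : ℕ) : Tendsto (fun x : ℕ => (x : ℝ) ^ (1 / 2 + 1 / 4 : ℝ) * Real.log x ^ k / x)
    atTop (𝓝 0) := by
  have h1 : (fun x : ℝ => Real.log x ^ k) =o[atTop] fun x : ℝ => x ^ (1 / 4 : ℝ) := by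
    have := isLittleO_log_rpow_rpow_atTop (s := 1 / 4) (k : ℝ) (by norm_num)
    refine this.congr_left fun x => ?_
    rw [Real.rpow_natCast]
  have h2 : Tendsto (fun x : ℝ => Real.log x ^ k / x ^ (1 / 4 : ℝ)) atTop (𝓝 0) := h1.tendsto_div_nhds_zero
  have h3 := h2.comp (tendsto_natCast_atTop_atTop (R := ℝ))
  refine h3.congr' ?_
  filter_upwards [eventually_ge_atTop 1] with x hx
  have hx0 : (0 : ℝ) < x := by exact_mod_cast hx
  show Real.log (x : ℝ) ^ k / (x : ℝ) ^ (1 / 4 : ℝ) = _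
  rw [div_eq_div_iff (by positivity) hx0.ne']
  have : (x : ℝ) = (x : ℝ) ^ (1 / 2 + 1 / 4 : ℝ) * (x : ℝ) ^ (1 / 4 : ℝ) := by
    rw [← Real.rpow_add hx0]
    norm_num
  calc Real.log (x : ℝ) ^ k * x = Real.log (x : ℝ) ^ k * ((x : ℝ) ^ (1 / 2 + 1 / 4 : ℝ) * (x : ℝ) ^ (1 / 4 : ℝ)) := by
        rw [← this]
    _ = _ := by ring

/-- the counts of the chains of exact length `k`, almost surely -/
theorem ae_exact : ∀ᵐ a ∂law, a ⟨2, Nat.prime_two⟩ = 0 → ∃ S : ℕ → ℝ, ∀ k : ℕ, 1 ≤ k →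
    0 < S k ∧
    Tendsto (fun z : ℕ => ∏ p ∈ Pr 0 z, (1 - (nu k a p : ℝ) / (p : ℕ)) / (1 - 1 / ((p : ℕ) : ℝ)) ^ k) atTop (𝓝 (S k)) ∧
    Tendsto (fun x : ℕ => (ex k a x : ℝ) * Real.log x ^ k / x) atTop (𝓝 (S k)) ∧
    ∀ ε : ℝ, 0 < ε → (fun x : ℕ => (ex k a x : ℝ) - (S k * L k x - S (k + 1) * L (k + 1) x)) =O[atTop]
      fun x : ℕ => (x : ℝ) ^ (1 / 2 + ε) := by
  filter_upwards [Pool.Agent.W2helper64.BQ.ae_final3] with a ha h2
  have h3 : ∀ k : ℕ, 1 ≤ k → ∃ S : ℝ, 0 < S ∧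
      Tendsto (fun z : ℕ => ∏ p ∈ Pr 0 z, (1 - (nu k a p : ℝ) / (p : ℕ)) / (1 - 1 / ((p : ℕ) : ℝ)) ^ k) atTop (𝓝 S) ∧
      ∀ ε : ℝ, 0 < ε → (fun x : ℕ => (BH.cnt (chS k) a x : ℝ) - S * L k x) =O[atTop]
        fun x : ℕ => (x : ℝ) ^ (1 / 2 + ε) := by
    intro k hk
    obtain ⟨S, h4, h5, h6, h7⟩ := ha k (chS k) (chS_inj k)
      (fun i => by show 0 < (chP i).natDegree; rw [chP_deg]; norm_num)
      (fun i => by show 0 < (chP i).leadingCoeff; rw [chP_lead]; positivity)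
    refine ⟨S, ?_, ?_, ?_⟩
    · rw [h6]
      intro p
      rw [nuB_chain hk a h2]
      exact nu_lt k a p
    · refine h5.congr fun z => ?_
      rw [PP_div]
      refine prod_congr rfl fun p _ => ?_
      unfold FF
      rw [nuB_chain hk a h2]
    · intro ε hε
      refine (h7 ε hε).congr_left fun x => ?_
      rw [HH_chain hk]
  choose! S hS using h3
  refine ⟨S, fun k hk => ?_⟩
  obtain ⟨p1, p2, p3⟩ := hS k hk
  obtain ⟨q1, q2, q3⟩ := hS (k + 1) (by omega)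
  have hmain : ∀ ε : ℝ, 0 < ε → (fun x : ℕ => (ex k a x : ℝ) - (S k * L k x - S (k + 1) * L (k + 1) x)) =O[atTop]
      fun x : ℕ => (x : ℝ) ^ (1 / 2 + ε) := by
    intro ε hε
    refine ((p3 ε hε).sub (q3 ε hε)).congr_left fun x => ?_
    have h4 : (ex k a x : ℝ) = (BH.cnt (chS k) a x : ℝ) - BH.cnt (chS (k + 1)) a x := by
      have := ex_add k a x
      rw [eq_sub_iff_add_eq]
      exact_mod_cast this
    rw [h4]
    ring
  refine ⟨p1, p2, ?_, hmain⟩
  have hlog : Tendsto (fun x : ℕ => Real.log (x : ℝ)) atTop atTop :=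
    Real.tendsto_log_atTop.comp tendsto_natCast_atTop_atTop
  -- the three parts
  have t1 : Tendsto (fun x : ℕ => S k * (L k x * Real.log x ^ k / x)) atTop (𝓝 (S k * 1)) :=
    tendsto_const_nhds.mul (L_asymp k)
  have t2 : Tendsto (fun x : ℕ => S (k + 1) * ((L (k + 1) x * Real.log x ^ (k + 1) / x) * (1 / Real.log x))) atTop
      (𝓝 (S (k + 1) * (1 * 0))) :=
    tendsto_const_nhds.mul ((L_asymp (k + 1)).mul (hlog.const_div_atTop _))
  have t3 : Tendsto (fun x : ℕ => ((ex k a x : ℝ) - (S k * L k x - S (k + 1) * L (k + 1) x)) *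
      (Real.log x ^ k / x)) atTop (𝓝 0) := by
    have h4 := (hmain (1 / 4) (by norm_num)).mul
      (Asymptotics.isBigO_refl (fun x : ℕ => Real.log (x : ℝ) ^ k / x) atTop)
    refine h4.trans_tendsto ?_
    refine (rpow_div_tendsto k).congr fun x => ?_
    ring
  have t4 := (t1.sub t2).add t3
  have e1 : S k * 1 - S (k + 1) * (1 * 0) + 0 = S k := by ring
  rw [e1] at t4
  refine t4.congr' ?_
  filter_upwards [hlog.eventually_ge_atTop 1, eventually_ge_atTop 1] with x hx hx1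
  have hx0 : (x : ℝ) ≠ 0 := by
    have : (0 : ℝ) < x := by exact_mod_cast hx1
    exact this.ne'
  have hl0 : Real.log (x : ℝ) ≠ 0 := by linarith
  field_simp
  ring

end Pool.Agent.W2helper64.CUN
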