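import Pool.Agent.W2helper64.BQ.Th5

set_option autoImplicit false
set_option linter.unusedSectionVars false

/-!
Cunningham chains in the random sieve: the local factors, the main term.
-/

namespace Pool.Agent.W2helper64.CUN

open Finset Filter Topology Polynomial MeasureTheory Pool.Agent.W2helper64.RS Pool.Agent.W2helper64.RK
open Pool.Agent.W2helper64.BH (Hit nuR nuB_eq mem_Im Im cnt HH AllR PP PP_div FF mem_Pr log8)
open Pool.Agent.H373R2.T7 (pz nuB)

theorem mfz {α : Type*} {p : α → Prop} {inst : DecidablePred p} {s : Finset α} {a : α} :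
    a ∈ @Finset.filter α p inst s ↔ a ∈ s ∧ p a := Finset.mem_filter

/-- the chain of the first kind -/
def c (i n : ℕ) : ℕ := 2 ^ i * (n + 1) - 1

/-- the polynomial `2 ^ i (X + 1) - 1` -/
noncomputable def chP (i : ℕ) : ℤ[X] := C ((2 : ℤ) ^ i) * X + C ((2 : ℤ) ^ i - 1)

/-- the chain of length `k` -/
noncomputable def chS (k : ℕ) : Fin k → ℤ[X] := fun i => chP i

theorem chP_eval (i : ℕ) (z : ℤ) : (chP i).eval z = 2 ^ i * (z + 1) - 1 := by
  unfold chP
  rw [eval_add, eval_mul, eval_C, eval_X, eval_C]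
  ring

theorem two_pow_ne (i : ℕ) : ((2 : ℤ) ^ i) ≠ 0 := pow_ne_zero _ (by norm_num)

theorem chP_deg (i : ℕ) : (chP i).natDegree = 1 := natDegree_linear (two_pow_ne i)

theorem chP_lead (i : ℕ) : (chP i).leadingCoeff = 2 ^ i := leadingCoeff_linear (two_pow_ne i)

theorem chS_inj (k : ℕ) : Function.Injective (chS k) := by
  intro i j h
  have h1 : (chP i).leadingCoeff = (chP j).leadingCoeff := congrArg leadingCoeff h
  rw [chP_lead, chP_lead] at h1
  have h2 : (2 : ℕ) ^ (i : ℕ) = 2 ^ (j : ℕ) := by exact_mod_cast h1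
  exact Fin.ext (Nat.pow_right_injective (le_refl 2) h2)

theorem c_cast (i n : ℕ) : ((c i n : ℕ) : ℤ) = 2 ^ i * ((n : ℤ) + 1) - 1 := by
  unfold c
  have hpos : 1 ≤ 2 ^ i * (n + 1) := Nat.mul_pos (Nat.two_pow_pos _) (by omega)
  rw [Nat.cast_sub hpos]
  push_cast
  ring

theorem c_ge (i n : ℕ) : n ≤ c i n := by
  unfold c
  have h3 : n + 1 ≤ 2 ^ i * (n + 1) := Nat.le_mul_of_pos_left _ (Nat.two_pow_pos _)
  omega

theorem c_le (i n : ℕ) : c i n + 1 = 2 ^ i * (n + 1) := by
  unfold c
  have hpos : 1 ≤ 2 ^ i * (n + 1) := Nat.mul_pos (Nat.two_pow_pos _) (by omega)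
  omega

theorem allR_iff (k : ℕ) (a : (p : Nat.Primes) → ZMod (p : ℕ)) (n : ℕ) :
    AllR (chS k) a n ↔ ∀ i < k, c i n ∈ R a := by
  unfold AllR chS
  constructor
  · intro h i hi
    obtain ⟨r, hr, he⟩ := h ⟨i, hi⟩
    rw [chP_eval, ← c_cast] at he
    have : r = c i n := by exact_mod_cast he
    rwa [← this]
  · intro h i
    refine ⟨c i n, h i i.2, ?_⟩
    rw [chP_eval, c_cast]

/-! ### the local factors -/

theorem card_pow_image {M : Type*} [Monoid M] [DecidableEq M] (u : M) (hu : 0 < orderOf u) (k : ℕ) :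
    ((range k).image fun i => u ^ i).card = min k (orderOf u) := by
  have hinj : ∀ m ≤ orderOf u, ((range m).image fun i => u ^ i).card = m := by
    intro m hm
    rw [card_image_of_injOn, card_range]
    intro i hi j hj hij
    rw [coe_range, Set.mem_Iio] at hi hj
    exact pow_injOn_Iio_orderOf (Set.mem_Iio.mpr (by omega)) (Set.mem_Iio.mpr (by omega)) hij
  rcases le_total k (orderOf u) with h | h
  · rw [min_eq_left h, hinj k h]
  · rw [min_eq_right h]
    have : ((range k).image fun i => u ^ i) = (range (orderOf u)).image fun i => u ^ i := by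
      ext y
      rw [mem_image, mem_image]
      constructor
      · rintro ⟨i, _, rfl⟩
        refine ⟨i % orderOf u, mem_range.mpr (Nat.mod_lt _ hu), pow_mod_orderOf _ _⟩
      · rintro ⟨i, hi, rfl⟩
        exact ⟨i, mem_range.mpr (lt_of_lt_of_le (mem_range.mp hi) h), rfl⟩
    rw [this, hinj _ le_rfl]

theorem two_ne {p : ℕ} (hp : p.Prime) (hp2 : p ≠ 2) : (2 : ZMod p) ≠ 0 := by
  intro h0
  have h1 : ((2 : ℕ) : ZMod p) = 0 := by exact_mod_cast h0
  rw [ZMod.natCast_eq_zero_iff] at h1
  exact hp2 ((Nat.prime_dvd_prime_iff_eq hp Nat.prime_two).mp h1)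

/-- the number of the forbidden classes -/
theorem nuR_chain (k : ℕ) (hk : 1 ≤ k) {p : ℕ} (hp : p.Prime) (hp2 : p ≠ 2) (r : ZMod p) :
    nuR (chS k) p r = if r = -1 then 1 else min k (orderOf (2 : ZMod p)) := by
  classical
  have : Fact p.Prime := ⟨hp⟩
  have : NeZero p := ⟨hp.ne_zero⟩
  have h20 := two_ne hp hp2
  have hord : 0 < orderOf (2 : ZMod p) := by
    have h1 : orderOf (Units.mk0 (2 : ZMod p) h20) = orderOf (2 : ZMod p) := by
      rw [← orderOf_units]; rfl
    rw [← h1]
    exact orderOf_pos _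
  -- transport to `ZMod p`
  have key : nuR (chS k) p r =
      (univ.filter fun m : ZMod p => ∃ i < k, (2 : ZMod p) ^ i * (m + 1) - 1 = r).card := by
    unfold nuR
    refine card_bij (fun m _ => ((m : ℕ) : ZMod p)) ?_ ?_ ?_
    · intro m hm
      rw [mf', mem_Im] at hm
      rw [mfz]
      obtain ⟨-, i, hi⟩ := hm
      refine ⟨mem_univ _, i, i.2, ?_⟩
      unfold chS at hi
      rw [chP_eval] at hi
      push_cast at hi
      exact hi
    · intro m hm l hl hml
      rw [mf', mem_range] at hm hl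
      rw [ZMod.natCast_eq_natCast_iff] at hml
      have h3 : m % p = l % p := hml
      rwa [Nat.mod_eq_of_lt hm.1, Nat.mod_eq_of_lt hl.1] at h3
    · intro x hx
      rw [mfz] at hx
      obtain ⟨-, i, hik, hi⟩ := hx
      refine ⟨x.val, ?_, ?_⟩
      · rw [mf', mem_range, mem_Im]
        refine ⟨ZMod.val_lt x, ⟨i, hik⟩, ?_⟩
        unfold chS
        rw [chP_eval]
        push_cast
        rw [ZMod.natCast_val, ZMod.cast_id', id]
        exact hi
      · rw [ZMod.natCast_val, ZMod.cast_id', id]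
  rw [key]
  by_cases hr : r = -1
  · rw [if_pos hr]
    have : (univ.filter fun m : ZMod p => ∃ i < k, (2 : ZMod p) ^ i * (m + 1) - 1 = r) = {-1} := by
      ext m
      rw [mfz, mem_singleton]
      constructor
      · rintro ⟨-, i, -, hi⟩
        rw [hr] at hi
        have h3 : (2 : ZMod p) ^ i * (m + 1) = 0 := by linear_combination hi
        rcases mul_eq_zero.mp h3 with h4 | h4
        · exact absurd h4 (pow_ne_zero _ h20)
        · exact eq_neg_of_add_eq_zero_left h4
      · rintro rfl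
        refine ⟨mem_univ _, 0, hk, ?_⟩
        rw [hr]; ring
    rw [this, card_singleton]
  · rw [if_neg hr]
    have hr1 : r + 1 ≠ 0 := fun h => hr (eq_neg_of_add_eq_zero_left h)
    have : (univ.filter fun m : ZMod p => ∃ i < k, (2 : ZMod p) ^ i * (m + 1) - 1 = r) =
        ((range k).image fun i => (2 : ZMod p) ^ i).image fun y => (r + 1) / y - 1 := by
      ext m
      rw [mfz, mem_image]
      constructor
      · rintro ⟨-, i, hik, hi⟩
        refine ⟨2 ^ i, mem_image.mpr ⟨i, mem_range.mpr hik, rfl⟩, ?_⟩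
        have h3 : (2 : ZMod p) ^ i ≠ 0 := pow_ne_zero _ h20
        rw [← hi]
        field_simp
        ring
      · rintro ⟨y, hy, rfl⟩
        obtain ⟨i, hi, rfl⟩ := mem_image.mp hy
        have h3 : (2 : ZMod p) ^ i ≠ 0 := pow_ne_zero _ h20
        refine ⟨mem_univ _, i, mem_range.mp hi, ?_⟩
        field_simp
        ring
    rw [this, card_image_of_injOn, card_pow_image _ hord]
    intro y hy z hz hyz
    obtain ⟨i, hi, rfl⟩ := mem_image.mp (mem_coe.mp hy)
    obtain ⟨j, hj, rfl⟩ := mem_image.mp (mem_coe.mp hz)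
    have h3 : (2 : ZMod p) ^ i ≠ 0 := pow_ne_zero _ h20
    have h4 : (2 : ZMod p) ^ j ≠ 0 := pow_ne_zero _ h20
    have h5 : (r + 1) / (2 : ZMod p) ^ i = (r + 1) / (2 : ZMod p) ^ j := by
      have : (r + 1) / (2 : ZMod p) ^ i - 1 = (r + 1) / (2 : ZMod p) ^ j - 1 := hyz
      linear_combination this
    rw [div_eq_div_iff h3 h4] at h5
    exact (mul_left_cancel₀ hr1 h5).symm

theorem nuR_two (k : ℕ) (hk : 1 ≤ k) : nuR (chS k) 2 (0 : ZMod 2) = 1 := by
  classical
  unfold nuR
  have h2 : (2 : ZMod 2) = 0 := by decide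
  have : ((range 2).filter fun m => (0 : ZMod 2) ∈ Im (chS k) 2 m) = {0} := by
    ext m
    rw [mf', mem_range, mem_Im, mem_singleton]
    constructor
    · rintro ⟨hm, i, hi⟩
      unfold chS at hi
      rw [chP_eval] at hi
      push_cast at hi
      rcases Nat.eq_zero_or_pos (i : ℕ) with h0 | h0
      · rw [h0] at hi
        have h3 : ((m : ℕ) : ZMod 2) = 0 := by linear_combination hi
        rw [ZMod.natCast_eq_zero_iff] at h3
        omega
      · rw [h2, zero_pow (by omega)] at hi
        have h3 : ∀ z : ZMod 2, 0 * (z + 1) - 1 ≠ 0 := by decide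
        exact absurd hi (h3 _)
    · rintro rfl
      refine ⟨by norm_num, ⟨0, hk⟩, ?_⟩
      unfold chS
      rw [chP_eval]
      norm_num
  rw [this, card_singleton]

end Pool.Agent.W2helper64.CUN
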