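import Pool.Agent.W2helper64.CUN.Cnt

set_option autoImplicit false
set_option linter.unusedSectionVars false

/-!
Cunningham chains in the random sieve: asymptotic counts.
-/

namespace Pool.Agent.W2helper64.CUN

open Finset Filter Topology Polynomial MeasureTheory Pool.Agent.W2helper64.RS Pool.Agent.W2helper64.RK
open Pool.Agent.W2helper64.BH (Hit nuR nuB_eq mem_Im Im cnt HH AllR PP PP_div FF mem_Pr log8 Pr)
open Pool.Agent.H373R2.T7 (pz nuB)

/-- the main term -/
noncomputable def L (k x : ℕ) : ℝ := ∑ n ∈ Icc 8 x, ∏ i ∈ range k, (1 / Real.log (c i n : ℝ))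

theorem HH_chain {k : ℕ} (hk : 1 ≤ k) (x : ℕ) : HH (chS k) x = L k x := by
  unfold HH L
  have h1 : @Finset.filter ℕ (fun n => ∀ i, 8 ≤ (chS k i).eval (n : ℤ)) (Classical.decPred _) (Icc 1 x) = Icc 8 x := by
    ext n
    rw [mf', mem_Icc, mem_Icc]
    constructor
    · rintro ⟨h1, h2⟩
      have h3 := h2 ⟨0, hk⟩
      unfold chS at h3
      rw [chP_eval] at h3
      norm_num at h3
      exact ⟨by exact_mod_cast h3, h1.2⟩
    · rintro ⟨h1, h2⟩
      refine ⟨⟨by omega, h2⟩, fun i => ?_⟩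
      unfold chS
      rw [chP_eval, ← c_cast]
      exact_mod_cast h1.trans (c_ge i n)
  rw [h1]
  refine sum_congr rfl fun n _ => ?_
  rw [← Fin.prod_univ_eq_prod_range (fun i => 1 / Real.log (c i n : ℝ)) k]
  refine prod_congr rfl fun i _ => ?_
  unfold chS
  rw [chP_eval, ← c_cast]
  norm_cast

/-! ### the size of the main term -/

theorem term_le {k n : ℕ} {u : ℝ} (hu : 0 < u) (h : u ≤ Real.log n) :
    ∏ i ∈ range k, (1 / Real.log (c i n : ℝ)) ≤ (1 / u) ^ k := by
  have hn0 : (0 : ℝ) < n := by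
    by_contra hcon
    have : (n : ℝ) = 0 := le_antisymm (not_lt.mp hcon) (Nat.cast_nonneg _)
    rw [this, Real.log_zero] at h
    linarith
  have h1 : ∀ i ∈ range k, 0 ≤ 1 / Real.log (c i n : ℝ) ∧ 1 / Real.log (c i n : ℝ) ≤ 1 / u := by
    intro i _
    have h2 : Real.log n ≤ Real.log (c i n : ℝ) :=
      Real.log_le_log hn0 (by exact_mod_cast c_ge i n)
    exact ⟨by apply one_div_nonneg.mpr; linarith, one_div_le_one_div_of_le hu (by linarith)⟩
  refine (prod_le_prod (fun i hi => (h1 i hi).1) fun i hi => (h1 i hi).2).trans ?_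
  rw [prod_const, card_range]

theorem term_ge {k n x : ℕ} (hn : 8 ≤ n) (hx : n ≤ x) :
    (1 / (Real.log x + (k + 1))) ^ k ≤ ∏ i ∈ range k, (1 / Real.log (c i n : ℝ)) := by
  have hx1 : (1 : ℝ) ≤ x := by exact_mod_cast (by omega : 1 ≤ x)
  have h1 : ∀ i ∈ range k, 0 ≤ 1 / (Real.log x + (k + 1)) ∧
      1 / (Real.log x + (k + 1)) ≤ 1 / Real.log (c i n : ℝ) := by
    intro i hi
    have hi' := mem_range.mp hi
    have h8 : (8 : ℝ) ≤ c i n := by exact_mod_cast hn.trans (c_ge i n)
    have h2 : (c i n : ℝ) ≤ 2 ^ (k + 1) * x := by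
      have e1 : c i n + 1 = 2 ^ i * (n + 1) := c_le i n
      have e2 : 2 ^ i * (n + 1) ≤ 2 ^ k * (2 * x) :=
        Nat.mul_le_mul (Nat.pow_le_pow_right (by norm_num) hi'.le) (by omega)
      have e3 : c i n ≤ 2 ^ (k + 1) * x := by
        rw [pow_succ]
        calc c i n ≤ 2 ^ k * (2 * x) := by omega
          _ = 2 ^ k * 2 * x := by ring
      exact_mod_cast e3
    have h3 : Real.log (c i n : ℝ) ≤ Real.log x + (k + 1) := by
      refine (Real.log_le_log (by linarith) h2).trans ?_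
      rw [Real.log_mul (by positivity) (by positivity), Real.log_pow]
      have h4 : Real.log 2 ≤ 1 := by
        have := Real.log_two_lt_d9
        linarith
      push_cast
      have h5 : (0 : ℝ) ≤ (k : ℝ) + 1 := by positivity
      nlinarith
    have h6 : 0 < Real.log (c i n : ℝ) := Real.log_pos (by linarith)
    have h7 : 0 ≤ Real.log x := Real.log_nonneg hx1
    exact ⟨by positivity, one_div_le_one_div_of_le h6 h3⟩
  calc (1 / (Real.log x + (k + 1))) ^ k = ∏ _i ∈ range k, (1 / (Real.log x + ((k : ℝ) + 1))) := by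
        rw [prod_const, card_range]
    _ ≤ _ := prod_le_prod (fun i hi => (h1 i hi).1) fun i hi => (h1 i hi).2

theorem L_ge {k x : ℕ} (hx : 8 ≤ x) :
    ((x : ℝ) - 7) * (1 / (Real.log x + (k + 1))) ^ k ≤ L k x := by
  unfold L
  have h1 : ∑ n ∈ Icc 8 x, (1 / (Real.log x + ((k : ℝ) + 1))) ^ k ≤
      ∑ n ∈ Icc 8 x, ∏ i ∈ range k, (1 / Real.log (c i n : ℝ)) :=
    sum_le_sum fun n hn => by
      rw [mem_Icc] at hn
      exact term_ge hn.1 hn.2
  rw [sum_const, Nat.card_Icc, nsmul_eq_mul] at h1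
  have h2 : ((x + 1 - 8 : ℕ) : ℝ) = (x : ℝ) - 7 := by
    rw [Nat.cast_sub (by omega)]
    push_cast
    ring
  rwa [h2] at h1

theorem L_le {k x : ℕ} {y : ℝ} (hy : 1 < y) (hx : 1 ≤ x) :
    L k x ≤ y + x * (1 / Real.log y) ^ k := by
  classical
  unfold L
  rw [← sum_filter_add_sum_filter_not (Icc 8 x) fun n : ℕ => (n : ℝ) < y]
  have hlog : 0 < Real.log y := Real.log_pos hy
  refine add_le_add ?_ ?_
  · have h1 : ∑ n ∈ (Icc 8 x).filter (fun n : ℕ => (n : ℝ) < y), ∏ i ∈ range k, (1 / Real.log (c i n : ℝ)) ≤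
        ∑ n ∈ (Icc 8 x).filter (fun n : ℕ => (n : ℝ) < y), (1 : ℝ) := by
      refine sum_le_sum fun n hn => ?_
      rw [mem_filter, mem_Icc] at hn
      have h8 : 2 ≤ Real.log (n : ℝ) := log8.trans (Real.log_le_log (by norm_num) (by exact_mod_cast hn.1.1))
      refine (term_le (u := 1) one_pos (by linarith)).trans ?_
      norm_num
    refine h1.trans ?_
    rw [sum_const, nsmul_eq_mul, mul_one]
    have h2 : (Icc 8 x).filter (fun n : ℕ => (n : ℝ) < y) ⊆ Icc 1 ⌊y⌋₊ := by
      intro n hn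
      rw [mem_filter, mem_Icc] at hn
      rw [mem_Icc]
      exact ⟨by omega, Nat.le_floor hn.2.le⟩
    have h3 := card_le_card h2
    rw [Nat.card_Icc, Nat.add_sub_cancel] at h3
    refine le_trans (by exact_mod_cast h3) (Nat.floor_le (by linarith))
  · have h1 : ∑ n ∈ (Icc 8 x).filter (fun n : ℕ => ¬ (n : ℝ) < y), ∏ i ∈ range k, (1 / Real.log (c i n : ℝ)) ≤
        ∑ n ∈ (Icc 8 x).filter (fun n : ℕ => ¬ (n : ℝ) < y), (1 / Real.log y) ^ k := by
      refine sum_le_sum fun n hn => ?_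
      rw [mem_filter, mem_Icc, not_lt] at hn
      exact term_le hlog (Real.log_le_log (by linarith) hn.2)
    refine h1.trans ?_
    rw [sum_const, nsmul_eq_mul]
    refine mul_le_mul_of_nonneg_right ?_ (by positivity)
    have h2 := card_le_card (filter_subset (fun n : ℕ => ¬ (n : ℝ) < y) (Icc 8 x))
    rw [Nat.card_Icc] at h2
    exact_mod_cast h2.trans (by omega : x + 1 - 8 ≤ x)

theorem tend_lo (k : ℕ) : Tendsto (fun x : ℕ => (1 - 7 / (x : ℝ)) * (1 / (1 + ((k : ℝ) + 1) / Real.log x)) ^ k)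
    atTop (𝓝 1) := by
  have hlog : Tendsto (fun x : ℕ => Real.log (x : ℝ)) atTop atTop :=
    Real.tendsto_log_atTop.comp tendsto_natCast_atTop_atTop
  have h1 : Tendsto (fun x : ℕ => (7 : ℝ) / (x : ℝ)) atTop (𝓝 0) := tendsto_const_div_atTop_nhds_zero_nat 7
  have h2 : Tendsto (fun x : ℕ => ((k : ℝ) + 1) / Real.log x) atTop (𝓝 0) := hlog.const_div_atTop _
  have h3 : Tendsto (fun x : ℕ => (1 - 7 / (x : ℝ)) * (1 / (1 + ((k : ℝ) + 1) / Real.log x)) ^ k)
      atTop (𝓝 ((1 - 0) * (1 / (1 + 0)) ^ k)) := by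
    refine (tendsto_const_nhds.sub h1).mul ((Tendsto.div tendsto_const_nhds (tendsto_const_nhds.add h2) ?_).pow k)
    norm_num
  simpa using h3

theorem tend_up (k : ℕ) : Tendsto (fun x : ℕ => 1 / Real.log x +
    (1 / (1 - ((k : ℝ) + 1) * (Real.log (Real.log x) / Real.log x))) ^ k) atTop (𝓝 1) := by
  have hlog : Tendsto (fun x : ℕ => Real.log (x : ℝ)) atTop atTop :=
    Real.tendsto_log_atTop.comp tendsto_natCast_atTop_atTop
  have h0 : Tendsto (fun u : ℝ => Real.log u / u) atTop (𝓝 0) := Real.isLittleO_log_id_atTop.tendsto_div_nhds_zero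
  have h1 : Tendsto (fun x : ℕ => Real.log (Real.log x) / Real.log x) atTop (𝓝 0) := h0.comp hlog
  have h2 : Tendsto (fun x : ℕ => (1 : ℝ) / Real.log x) atTop (𝓝 0) := hlog.const_div_atTop _
  have h3 : Tendsto (fun x : ℕ => 1 / Real.log x +
      (1 / (1 - ((k : ℝ) + 1) * (Real.log (Real.log x) / Real.log x))) ^ k) atTop
      (𝓝 (0 + (1 / (1 - ((k : ℝ) + 1) * 0)) ^ k)) := by
    refine h2.add ((Tendsto.div tendsto_const_nhds
      (tendsto_const_nhds.sub (tendsto_const_nhds.mul h1)) ?_).pow k)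
    norm_num
  simpa using h3

theorem L_asymp (k : ℕ) : Tendsto (fun x : ℕ => L k x * Real.log x ^ k / x) atTop (𝓝 1) := by
  have hlog : Tendsto (fun x : ℕ => Real.log (x : ℝ)) atTop atTop :=
    Real.tendsto_log_atTop.comp tendsto_natCast_atTop_atTop
  have h0 : Tendsto (fun u : ℝ => Real.log u / u) atTop (𝓝 0) := Real.isLittleO_log_id_atTop.tendsto_div_nhds_zero
  have h1 : Tendsto (fun x : ℕ => ((k : ℝ) + 1) * (Real.log (Real.log x) / Real.log x)) atTop (𝓝 (((k : ℝ) + 1) * 0)) :=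
    tendsto_const_nhds.mul (h0.comp hlog)
  rw [mul_zero] at h1
  refine tendsto_of_tendsto_of_tendsto_of_le_of_le' (tend_lo k) (tend_up k) ?_ ?_
  · filter_upwards [eventually_ge_atTop 8, hlog.eventually_ge_atTop 1] with x hx hl
    have hx0 : (0 : ℝ) < x := by exact_mod_cast (by omega : 0 < x)
    have h2 := L_ge (k := k) hx
    have hl0 : 0 < Real.log (x : ℝ) := by linarith
    have e1 : (1 - 7 / (x : ℝ)) * (1 / (1 + ((k : ℝ) + 1) / Real.log x)) ^ k =
        ((x : ℝ) - 7) * (1 / (Real.log x + (k + 1))) ^ k * Real.log x ^ k / x := by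
      have e2 : (1 / (1 + ((k : ℝ) + 1) / Real.log x)) = 1 / (Real.log x + (k + 1)) * Real.log x := by
        have : Real.log x + ((k : ℝ) + 1) ≠ 0 := by positivity
        field_simp
      rw [e2, mul_pow]
      field_simp
    rw [e1]
    apply div_le_div_of_nonneg_right _ hx0.le
    exact mul_le_mul_of_nonneg_right h2 (by positivity)
  · filter_upwards [eventually_ge_atTop 8, hlog.eventually_ge_atTop 1,
      h1.eventually (gt_mem_nhds (show (0 : ℝ) < 1 by norm_num))] with x hx hl hs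
    have hx0 : (0 : ℝ) < x := by exact_mod_cast (by omega : 0 < x)
    have hl0 : 0 < Real.log (x : ℝ) := by linarith
    set u := Real.log (x : ℝ) with hu
    set y : ℝ := x / u ^ (k + 1) with hy
    have hupos : 0 < u ^ (k + 1) := by positivity
    have hlogy : Real.log y = u - (k + 1) * Real.log u := by
      rw [hy, Real.log_div hx0.ne' hupos.ne', Real.log_pow]
      push_cast
      ring
    have hlogy0 : 0 < Real.log y := by
      rw [hlogy]
      have e1 : ((k : ℝ) + 1) * (Real.log u / u) * u < 1 * u := mul_lt_mul_of_pos_right hs hl0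
      have e2 : ((k : ℝ) + 1) * (Real.log u / u) * u = (k + 1) * Real.log u := by
        field_simp
      linarith
    have hy0 : 0 < y := by positivity
    have hy1 : 1 < y := by
      by_contra hcon
      have := Real.log_nonpos hy0.le (not_lt.mp hcon)
      linarith
    have h2 := L_le (k := k) hy1 (by omega : 1 ≤ x)
    have e1 : 1 / u + (1 / (1 - ((k : ℝ) + 1) * (Real.log u / u))) ^ k =
        (y + x * (1 / Real.log y) ^ k) * u ^ k / x := by
      have e2 : (1 / (1 - ((k : ℝ) + 1) * (Real.log u / u))) = 1 / Real.log y * u := by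
        have h3 : Real.log y = u * (1 - ((k : ℝ) + 1) * (Real.log u / u)) := by
          rw [hlogy]
          field_simp
        have h4 : 1 - ((k : ℝ) + 1) * (Real.log u / u) ≠ 0 := by linarith
        rw [h3]
        field_simp
      rw [e2, mul_pow, hy]
      field_simp
      ring
    rw [e1]
    apply div_le_div_of_nonneg_right _ hx0.le
    exact mul_le_mul_of_nonneg_right h2 (by positivity)

end Pool.Agent.W2helper64.CUN
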